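import Mathlib

set_option autoImplicit false

namespace Pool.Agent.H.MP_9cfc50_lc

/-- a ground normal rule: head, positive body atoms, negated body atoms -/
abbrev Rule (A : Type) := A × Finset A × Finset A

variable {A : Type}

/-- signed arcs of the atom dependency graph; `true` = negative arc -/
def Arc (P : Set (Rule A)) (s : Bool) (u v : A) : Prop :=
  ∃ r ∈ P, r.1 = v ∧ u ∈ (if s then r.2.2 else r.2.1)

/-- an elementary directed cycle with vertices `c i` and signed arcs `(c i, c (i+1), s i)` -/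
def IsCycle (P : Set (Rule A)) {n : ℕ} (c : Fin (n + 1) → A) (s : Fin (n + 1) → Bool) : Prop :=
  Function.Injective c ∧ ∀ i, Arc P (s i) (c i) (c (i + 1))

/-- number of negative arcs -/
def negCount {n : ℕ} (s : Fin (n + 1) → Bool) : ℕ := (Finset.univ.filter fun i => s i = true).card

/-- `J` is a three-valued model (values 0 < 1 < 2 for false, one half, true) of the reduct `P^I` -/
def ReductModel (P : Set (Rule A)) (I J : A → Fin 3) : Prop :=
  ∀ r ∈ P, ∀ t : Fin 3, (∀ b ∈ r.2.1, t ≤ J b) → (∀ c ∈ r.2.2, t ≤ (I c).rev) → t ≤ J r.1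

def StablePartial (P : Set (Rule A)) (I : A → Fin 3) : Prop :=
  IsLeast {J | ReductModel P I J} I

def InfoLE (I J : A → Fin 3) : Prop := ∀ a, I a ≠ 1 → J a = I a

def RegularModel (P : Set (Rule A)) (I : A → Fin 3) : Prop :=
  StablePartial P I ∧ ∀ J, StablePartial P J → InfoLE I J → J = I

lemma negCount_cast {n : ℕ} (s : Fin (n + 1) → Bool) :
    ((negCount s : ℕ) : ZMod 2) = ∑ i, (if s i = true then (1 : ZMod 2) else 0) := by
  unfold negCount
  rw [Finset.card_filter]
  push_cast
  rfl

lemma sum_shift {n : ℕ} (o : Fin (n + 1) → ZMod 2) : ∑ i, (o i + o (i + 1)) = 0 := by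
  rw [Finset.sum_add_distrib]
  have : ∑ i, o (i + 1) = ∑ i, o i := Equiv.sum_comp (Equiv.addRight (1 : Fin (n + 1))) o
  rw [this]
  exact CharTwo.add_self_eq_zero _

end Pool.Agent.H.MP_9cfc50_lc
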