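import Mathlib
import Pool.Agent.H.MP_9cfc50_lc.Defs

set_option autoImplicit false

namespace Pool.Agent.H.MP_9cfc50_lc

variable {A : Type}

inductive Der (P : Set (Rule A)) (X : Set A) : A → Prop
  | mk (r : Rule A) (hr : r ∈ P) (hp : ∀ b ∈ r.2.1, Der P X b) (hn : ∀ c ∈ r.2.2, c ∉ X) :
      Der P X r.1

lemma Der.anti {P : Set (Rule A)} {X Y : Set A} (h : X ⊆ Y) {a : A} (d : Der P Y a) :
    Der P X a := by
  induction d with
  | mk r hr _ hn ih => exact Der.mk r hr ih fun c hc hx => hn c hc (h hx)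

lemma Der.inv {P : Set (Rule A)} {X : Set A} {a : A} (d : Der P X a) :
    ∃ r ∈ P, r.1 = a ∧ (∀ b ∈ r.2.1, Der P X b) ∧ ∀ c ∈ r.2.2, c ∉ X := by
  cases d with
  | mk r hr hp hn => exact ⟨r, hr, rfl, hp, hn⟩

def TT (I : A → Fin 3) : Set A := {a | I a = 2}
def NN (I : A → Fin 3) : Set A := {a | I a ≠ 0}

open Classical in
noncomputable def mkI (T N : Set A) : A → Fin 3 := fun a => if a ∈ T then 2 else if a ∈ N then 1 else 0

lemma TT_mkI (T N : Set A) : TT (mkI T N) = T := by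
  ext a; simp only [TT, mkI, Set.mem_setOf_eq]; split_ifs <;> simp [*]

lemma NN_mkI {T N : Set A} (h : T ⊆ N) : NN (mkI T N) = N := by
  ext a; simp only [NN, mkI, Set.mem_setOf_eq]
  split_ifs with h1 h2
  · simp [h h1]
  · simp [h2]
  · simp [h2]

lemma TT_sub_NN (I : A → Fin 3) : TT I ⊆ NN I := by
  intro a ha; simp only [TT, NN, Set.mem_setOf_eq] at *; rw [ha]; decide

lemma eq_of_TN {I J : A → Fin 3} (h1 : TT I = TT J) (h2 : NN I = NN J) : I = J := by
  funext a
  have e1 : I a = 2 ↔ J a = 2 := Set.ext_iff.1 h1 a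
  have e2 : I a ≠ 0 ↔ J a ≠ 0 := Set.ext_iff.1 h2 a
  revert e1 e2
  generalize I a = x; generalize J a = y
  revert x y; decide

lemma model_der {P : Set (Rule A)} {I J : A → Fin 3} (h : ReductModel P I J) :
    (∀ a, Der P (NN I) a → a ∈ TT J) ∧ (∀ a, Der P (TT I) a → a ∈ NN J) := by
  constructor
  · intro a d
    induction d with
    | mk r hr _ hn ih =>
      have := h r hr 2 (fun b hb => (ih b hb).ge) (fun c hc => by
        have : I c = 0 := by simpa [NN] using hn c hc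
        rw [this]; decide)
      exact le_antisymm (Fin.le_last _) this
  · intro a d
    induction d with
    | mk r hr _ hn ih =>
      have := h r hr 1 (fun b hb => by
        have : J b ≠ 0 := ih b hb
        revert this; generalize J b = x; revert x; decide) (fun c hc => by
        have : I c ≠ 2 := hn c hc
        revert this; generalize I c = x; revert x; decide)
      show J r.1 ≠ 0
      revert this; generalize J r.1 = x; revert x; decide

lemma der_model (P : Set (Rule A)) (I : A → Fin 3) :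
    ReductModel P I (mkI {a | Der P (NN I) a} {a | Der P (TT I) a}) := by
  have hs : {a | Der P (NN I) a} ⊆ {a | Der P (TT I) a} := fun a d => Der.anti (TT_sub_NN I) d
  set K := mkI {a | Der P (NN I) a} {a | Der P (TT I) a} with hK
  have hT : ∀ a, K a = 2 ↔ Der P (NN I) a := fun a => Set.ext_iff.1 (TT_mkI _ _) a
  have hN : ∀ a, K a ≠ 0 ↔ Der P (TT I) a := fun a => Set.ext_iff.1 (NN_mkI hs) a
  intro r hr t hp hn
  have h3 : ∀ t : Fin 3, t = 0 ∨ t = 1 ∨ t = 2 := by decide
  rcases h3 t with rfl | rfl | rfl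
  · exact Fin.zero_le _
  · have : K r.1 ≠ 0 := (hN _).2 (Der.mk r hr (fun b hb => (hN b).1 (by
      have := hp b hb
      revert this; generalize K b = x; revert x; decide)) (fun c hc => by
      have := hn c hc
      show I c ≠ 2
      revert this; generalize I c = x; revert x; decide))
    revert this; generalize K r.1 = x; revert x; decide
  · have : K r.1 = 2 := (hT _).2 (Der.mk r hr (fun b hb => (hT b).1 (by
      have := hp b hb
      revert this; generalize K b = x; revert x; decide)) (fun c hc => by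
      have := hn c hc
      show ¬ I c ≠ 0
      revert this; generalize I c = x; revert x; decide))
    rw [this]

lemma stable_iff (P : Set (Rule A)) (I : A → Fin 3) :
    StablePartial P I ↔ TT I = {a | Der P (NN I) a} ∧ NN I = {a | Der P (TT I) a} := by
  have hs : {a | Der P (NN I) a} ⊆ {a | Der P (TT I) a} := fun a d => Der.anti (TT_sub_NN I) d
  have hT : ∀ a, mkI {a | Der P (NN I) a} {a | Der P (TT I) a} a = 2 ↔ Der P (NN I) a :=
    fun a => Set.ext_iff.1 (TT_mkI _ _) a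
  have hN : ∀ a, mkI {a | Der P (NN I) a} {a | Der P (TT I) a} a ≠ 0 ↔ Der P (TT I) a :=
    fun a => Set.ext_iff.1 (NN_mkI hs) a
  constructor
  · rintro ⟨h1, h2⟩
    have h3 := h2 (der_model P I)
    obtain ⟨m1, m2⟩ := model_der h1
    constructor
    · ext a
      refine ⟨fun ha => (hT a).1 ?_, m1 a⟩
      have h4 := h3 a
      have : I a = 2 := ha
      rw [this] at h4
      exact le_antisymm (Fin.le_last _) h4
    · ext a
      refine ⟨fun ha => (hN a).1 ?_, m2 a⟩
      have h4 := h3 a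
      have : I a ≠ 0 := ha
      intro h0; rw [h0] at h4
      exact this (le_antisymm h4 (Fin.zero_le _))
  · rintro ⟨h1, h2⟩
    have e : mkI {a | Der P (NN I) a} {a | Der P (TT I) a} = I :=
      eq_of_TN (by rw [TT_mkI, ← h1]) (by rw [NN_mkI hs, ← h2])
    constructor
    · have := der_model P I
      rwa [e] at this
    · intro J hJ a
      obtain ⟨m1, m2⟩ := model_der hJ
      have k1 : I a = 2 → J a = 2 := fun h => m1 a (by have : a ∈ TT I := h; rwa [h1] at this)
      have k2 : I a ≠ 0 → J a ≠ 0 := fun h => m2 a (by have : a ∈ NN I := h; rwa [h2] at this)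
      exact (by decide : ∀ x y : Fin 3, (x = 2 → y = 2) → (x ≠ 0 → y ≠ 0) → x ≤ y) _ _ k1 k2

lemma info_of {I K : A → Fin 3} (h1 : TT I ⊆ TT K) (h2 : NN K ⊆ NN I) : InfoLE I K := by
  intro a
  have k1 : I a = 2 → K a = 2 := fun h => h1 h
  have k2 : K a ≠ 0 → I a ≠ 0 := fun h => h2 h
  revert k1 k2
  generalize I a = x; generalize K a = y
  revert x y; decide

lemma exists_above [Finite A] (P : Set (Rule A)) (T0 N0 : Set A) (h0 : T0 ⊆ N0)
    (h1 : ∀ a ∈ T0, Der P N0 a) (h2 : ∀ a, Der P T0 a → a ∈ N0) :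
    ∃ K, StablePartial P K ∧ T0 ⊆ TT K ∧ NN K ⊆ N0 := by
  let S : Set (Set A × (Set A)ᵒᵈ) := {p | T0 ⊆ p.1 ∧ OrderDual.ofDual p.2 ⊆ N0 ∧
    p.1 ⊆ OrderDual.ofDual p.2 ∧ (∀ a ∈ p.1, Der P (OrderDual.ofDual p.2) a) ∧
    ∀ a, Der P p.1 a → a ∈ OrderDual.ofDual p.2}
  have hne : S.Nonempty := ⟨(T0, OrderDual.toDual N0), le_rfl, le_rfl, h0, h1, h2⟩
  obtain ⟨⟨T, N'⟩, ⟨a1, a2, a3, a4, a5⟩, hmax⟩ := (Set.toFinite S).exists_maximal hne
  set N : Set A := OrderDual.ofDual N' with hN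
  dsimp only at a1 a2 a3 a4 a5
  have hmem : ({a | Der P N a}, OrderDual.toDual {a | Der P T a}) ∈ S := by
    refine ⟨fun a ha => a4 a (a1 ha), fun a ha => a2 (a5 a ha), fun a ha => Der.anti a3 ha,
      fun a ha => Der.anti (fun b hb => a5 b hb) ha, fun a ha => Der.anti (fun b hb => a4 b hb) ha⟩
  have hle := hmax hmem ⟨fun a ha => a4 a ha, fun a ha => a5 a ha⟩
  have e1 : T = {a | Der P N a} := Set.Subset.antisymm (fun a ha => a4 a ha) hle.1
  have e2 : N = {a | Der P T a} := Set.Subset.antisymm hle.2 (fun a ha => a5 a ha)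
  refine ⟨mkI T N, (stable_iff P _).2 ?_, ?_, ?_⟩
  · rw [TT_mkI, NN_mkI a3]; exact ⟨e1, e2⟩
  · rw [TT_mkI]; exact a1
  · rw [NN_mkI a3]; exact a2

lemma conflict [Finite A] {P : Set (Rule A)} {I J : A → Fin 3} (hI : RegularModel P I)
    (hJ : RegularModel P J) (hne : I ≠ J) :
    ∃ a, (a ∈ TT I ∧ a ∉ NN J) ∨ (a ∈ TT J ∧ a ∉ NN I) := by
  by_contra hc
  push Not at hc
  obtain ⟨i1, i2⟩ := (stable_iff P I).1 hI.1
  obtain ⟨j1, j2⟩ := (stable_iff P J).1 hJ.1
  obtain ⟨K, hK, k1, k2⟩ := exists_above P (TT I ∪ TT J) (NN I ∩ NN J)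
    (by
      rintro a (ha | ha)
      · exact ⟨TT_sub_NN I ha, (hc a).1 ha⟩
      · exact ⟨(hc a).2 ha, TT_sub_NN J ha⟩)
    (by
      rintro a (ha | ha)
      · rw [i1] at ha; exact Der.anti Set.inter_subset_left ha
      · rw [j1] at ha; exact Der.anti Set.inter_subset_right ha)
    (by
      intro a ha
      constructor
      · rw [i2]; exact Der.anti Set.subset_union_left ha
      · rw [j2]; exact Der.anti Set.subset_union_right ha)
  have e1 := hI.2 K hK (info_of (Set.subset_union_left.trans k1) (k2.trans Set.inter_subset_left))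
  have e2 := hJ.2 K hK (info_of (Set.subset_union_right.trans k1) (k2.trans Set.inter_subset_right))
  exact hne (e1.symm.trans e2)

lemma pred_step {P : Set (Rule A)} {I J : A → Fin 3} (hI : StablePartial P I)
    (hJ : StablePartial P J) {a : A} (h1 : a ∈ TT I) (h2 : a ∉ NN J) :
    (∃ b, b ∈ TT I ∧ b ∉ NN J ∧ Arc P false b a) ∨ (∃ b, b ∈ TT J ∧ b ∉ NN I ∧ Arc P true b a) := by
  obtain ⟨i1, i2⟩ := (stable_iff P I).1 hI
  obtain ⟨j1, j2⟩ := (stable_iff P J).1 hJ
  rw [i1] at h1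
  obtain ⟨r, hr, rfl, hp, hn⟩ := Der.inv h1
  by_contra hc
  push Not at hc
  apply h2
  rw [j2]
  refine Der.mk r hr (fun b hb => ?_) (fun c hc' hx => ?_)
  · by_contra hd
    refine hc.1 b (by rw [i1]; exact hp b hb) (by rw [j2]; exact hd) ⟨r, hr, rfl, by simpa using hb⟩
  · exact hc.2 c hx (hn c hc') ⟨r, hr, rfl, by simpa using hc'⟩

lemma exists_cycle {D : Type} [Finite D] [Nonempty D] (g : D → D) :
    ∃ (n : ℕ) (c : Fin (n + 1) → D), Function.Injective c ∧ ∀ i, g (c (i + 1)) = c i := by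
  obtain ⟨x0⟩ := ‹Nonempty D›
  obtain ⟨i, j, hij, he⟩ := Finite.exists_ne_map_eq_of_infinite (fun k : ℕ => g^[k] x0)
  wlog hlt : i < j generalizing i j
  · exact this j i hij.symm he.symm (by omega)
  have hper : Function.IsPeriodicPt g (j - i) (g^[i] x0) := by
    show g^[j - i] (g^[i] x0) = g^[i] x0
    rw [← Function.iterate_add_apply, Nat.sub_add_cancel hlt.le]; exact he.symm
  set x := g^[i] x0
  have hpos : 0 < Function.minimalPeriod g x := hper.minimalPeriod_pos (by omega)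
  obtain ⟨n, hn⟩ : ∃ n, Function.minimalPeriod g x = n + 1 := ⟨_, (Nat.succ_pred_eq_of_pos hpos).symm⟩
  refine ⟨n, fun k => g^[n - k] x, ?_, ?_⟩
  · intro k l h
    have := Function.iterate_injOn_Iio_minimalPeriod (f := g) (x := x)
      (show n - k ∈ Set.Iio _ by simp [hn]) (show n - l ∈ Set.Iio _ by simp [hn]) h
    ext; omega
  · intro k
    rw [← Function.iterate_succ_apply' g]
    by_cases hk : k = Fin.last n
    · subst hk
      simp only [Fin.last_add_one, Fin.val_zero, Fin.val_last, Nat.sub_self, Nat.sub_zero]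
      have := Function.iterate_minimalPeriod (f := g) (x := x)
      rw [hn] at this
      simpa using this
    · have : ((k + 1 : Fin (n + 1)) : ℕ) = k + 1 := Fin.val_add_one_of_lt (Fin.lt_last_iff_ne_last.2 hk)
      rw [this]
      congr 1
      have : (k : ℕ) < n := Fin.lt_last_iff_ne_last.2 hk
      omega

lemma even_cycle [Finite A] {P : Set (Rule A)} {I J : A → Fin 3} (hI : RegularModel P I)
    (hJ : RegularModel P J) (hne : I ≠ J) :
    ∃ (n : ℕ) (c : Fin (n + 1) → A) (s : Fin (n + 1) → Bool), IsCycle P c s ∧ Even (negCount s) ∧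
      ∀ i, (c i ∈ TT I ∧ c i ∉ NN J) ∨ (c i ∈ TT J ∧ c i ∉ NN I) := by
  classical
  let D := {a // (a ∈ TT I ∧ a ∉ NN J) ∨ (a ∈ TT J ∧ a ∉ NN I)}
  obtain ⟨a0, ha0⟩ := conflict hI hJ hne
  have : Nonempty D := ⟨⟨a0, ha0⟩⟩
  have key : ∀ a : D, ∃ b : D, Arc P (decide (b.1 ∈ TT I) != decide (a.1 ∈ TT I)) b.1 a.1 := by
    rintro ⟨a, ⟨h1, h2⟩ | ⟨h1, h2⟩⟩
    · rcases pred_step hI.1 hJ.1 h1 h2 with ⟨b, b1, b2, b3⟩ | ⟨b, b1, b2, b3⟩
      · exact ⟨⟨b, Or.inl ⟨b1, b2⟩⟩, by simpa [h1, b1] using b3⟩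
      · have : b ∉ TT I := fun h => b2 (TT_sub_NN I h)
        exact ⟨⟨b, Or.inr ⟨b1, b2⟩⟩, by simpa [h1, this] using b3⟩
    · have h3 : a ∉ TT I := fun h => h2 (TT_sub_NN I h)
      rcases pred_step hJ.1 hI.1 h1 h2 with ⟨b, b1, b2, b3⟩ | ⟨b, b1, b2, b3⟩
      · have : b ∉ TT I := fun h => b2 (TT_sub_NN I h)
        exact ⟨⟨b, Or.inr ⟨b1, b2⟩⟩, by simpa [h3, this] using b3⟩
      · exact ⟨⟨b, Or.inl ⟨b1, b2⟩⟩, by simpa [h3, b1] using b3⟩
  choose g hg using key
  obtain ⟨n, c, hc, hg'⟩ := exists_cycle g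
  refine ⟨n, fun i => (c i).1, fun i => decide ((c i).1 ∈ TT I) != decide ((c (i + 1)).1 ∈ TT I),
    ⟨fun i j h => hc (Subtype.ext h), fun i => ?_⟩, ?_, fun i => (c i).2⟩
  · have := hg (c (i + 1))
    rwa [hg' i] at this
  · rw [← ZMod.natCast_eq_zero_iff_even, negCount_cast]
    refine Eq.trans ?_ (sum_shift (fun i => if (c i).1 ∈ TT I then (1 : ZMod 2) else 0))
    refine Finset.sum_congr rfl fun i _ => ?_
    by_cases h1 : (c i).1 ∈ TT I <;> by_cases h2 : (c (i + 1)).1 ∈ TT I <;> simp [h1, h2]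
    decide

theorem main [Fintype A] (P : Set (Rule A)) (U : Finset A)
    (hU : ∀ (n : ℕ) (c : Fin (n + 1) → A) (s : Fin (n + 1) → Bool), IsCycle P c s →
      Even (negCount s) → ∃ i, c i ∈ U) :
    {I | RegularModel P I}.encard ≤ 2 ^ U.card := by
  classical
  let f : (A → Fin 3) → Finset A := fun I => U.filter (· ∈ TT I)
  have hinj : Set.InjOn f {I | RegularModel P I} := by
    intro I hI J hJ hf
    by_contra hne
    obtain ⟨n, c, s, h1, h2, h3⟩ := even_cycle hI hJ hne
    obtain ⟨i, hi⟩ := hU n c s h1 h2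
    have e := Finset.ext_iff.1 hf (c i)
    simp only [f, Finset.mem_filter, hi, true_and] at e
    rcases h3 i with ⟨a, b⟩ | ⟨a, b⟩
    · exact b (TT_sub_NN J (e.1 a))
    · exact b (TT_sub_NN I (e.2 a))
  have := Set.encard_le_encard_of_injOn (t := (U.powerset : Set (Finset A))) (f := f)
    (fun I _ => by simp [f, Set.subset_def]; tauto) hinj
  rw [Set.encard_coe_eq_coe_finsetCard, Finset.card_powerset] at this
  simpa using this

end Pool.Agent.H.MP_9cfc50_lc
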